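import Pool.Agent.H.MP_78b1ee_co.Val

set_option autoImplicit false

namespace Pool.Agent.H.MP_78b1ee_co

def Sq (g : ℕ → ℚ) (i l : ℕ) : Prop :=
  ∀ a < l, ∀ b < l, (g (i + a) < g (i + b) ↔ g (i + l + a) < g (i + l + b))

lemma sq_refl (g g' : ℕ → ℚ) (N i i' l : ℕ) (hN : i + i' + 2 * l = N)
    (h : ∀ u w, u + w + 1 = N → i ≤ w → w < i + 2 * l → g' u = 1 - g w) (H : Sq g i l) :
    Sq g' i' l := by
  intro a ha b hb
  rw [h (i' + a) (i + l + (l - 1 - a)) (by omega) (by omega) (by omega),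
    h (i' + b) (i + l + (l - 1 - b)) (by omega) (by omega) (by omega),
    h (i' + l + a) (i + (l - 1 - a)) (by omega) (by omega) (by omega),
    h (i' + l + b) (i + (l - 1 - b)) (by omega) (by omega) (by omega),
    sub_lt_sub_iff_left, sub_lt_sub_iff_left]
  exact (H _ (by omega) _ (by omega)).symm

lemma left_nosq {n : ℕ} (hn : 9 ≤ n) (i l : ℕ) (hi : i < 12) (hl : 2 ≤ l) (h : i + 2 * l ≤ 100) :
    ¬ Sq (val n) i l := by
  intro H
  apply tab1 i l hi hl h
  intro a ha b hb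
  rw [← left_ord hn (by omega) (by omega), ← left_ord hn (by omega) (by omega)]
  exact H a ha b hb

lemma next_mul (h lo : ℕ) (hh : 0 < h) : ∃ m, lo ≤ h * m ∧ h * m < lo + h := by
  refine ⟨(lo + h - 1) / h, ?_, ?_⟩
  · have := Nat.div_add_mod (lo + h - 1) h
    have := Nat.mod_lt (lo + h - 1) hh
    omega
  · have := Nat.mul_div_le (lo + h - 1) h
    omega

lemma flip_sq {n : ℕ} (hn : 9 ≤ n) (i l j o m : ℕ) (ho : o % 2 = 1) (hl : l = 2 ^ j * (2 * o))
    (h1 : i + 6 ≤ 2 ^ j * m) (h2 : 2 ^ j * m + 2 ^ j < i + 6 + l) (h3 : 18 ≤ 2 ^ j * m)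
    (h4 : 2 ^ j * m + 2 ^ j + l + 18 ≤ 2 ^ n) : ¬ Sq (val n) i l := by
  intro H
  obtain ⟨a, ha⟩ : ∃ a, i + a + 6 = 2 ^ j * m := ⟨2 ^ j * m - i - 6, by omega⟩
  have e1 : i + (a + 2 ^ j) + 6 = 2 ^ j * (m + 1) := by rw [mul_add]; omega
  have e2 : i + l + a + 6 = 2 ^ j * (m + 2 * o) := by rw [mul_add]; omega
  have e3 : i + l + (a + 2 ^ j) + 6 = 2 ^ j * (m + 1 + 2 * o) := by rw [mul_add, mul_add]; omega
  have p : 0 < 2 ^ j := by positivity
  have := H a (by omega) (a + 2 ^ j) (by omega)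
  rcases Nat.mod_two_eq_zero_or_one m with h | h
  · rw [(cmp hn j (m + 1) m _ _ (by omega) h e1 ha (by omega) (by omega) (by omega) (by omega)).2,
      (cmp hn j (m + 1 + 2 * o) (m + 2 * o) _ _ (by omega) (by omega) e3 e2 (by omega) (by omega)
        (by omega) (by omega)).2] at this
    omega
  · rw [(cmp hn j m (m + 1) _ _ h (by omega) ha e1 (by omega) (by omega) (by omega) (by omega)).1,
      (cmp hn j (m + 2 * o) (m + 1 + 2 * o) _ _ (by omega) (by omega) e2 e3 (by omega) (by omega)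
        (by omega) (by omega)).1] at this
    omega

lemma nosq {n : ℕ} (hn : 9 ≤ n) (i l : ℕ) (hl : 2 ≤ l) (h : i + 2 * l ≤ 2 ^ n - 11) :
    ¬ Sq (val n) i l := by
  obtain ⟨E, hE, hE0⟩ := big hn
  by_cases c1 : i < 12 ∧ i + 2 * l ≤ 100
  · exact left_nosq hn i l c1.1 hl c1.2
  by_cases c2 : 2 ^ n - 11 - (i + 2 * l) < 12 ∧ 2 ^ n - 111 ≤ i
  · intro H
    refine left_nosq hn (2 ^ n - 11 - (i + 2 * l)) l c2.1 hl (by omega) ?_
    refine sq_refl (val n) (val n) (2 ^ n - 11) i _ l (by omega) ?_ H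
    intro u w huw hw _
    rw [refl_val hn huw (by omega)]; ring
  obtain ⟨k, o, ho, hlo⟩ := Nat.exists_eq_two_pow_mul_odd (n := l) (by omega)
  have ho' : o % 2 = 1 := Nat.odd_iff.1 ho
  rcases k with _ | j
  · intro H
    have a := H 0 (by omega) 1 (by omega)
    have b := H 1 (by omega) 2 (by omega)
    simp only [Nat.add_zero] at a
    rw [shape hn (by omega), shape hn (by omega)] at a
    rw [show i + 2 = i + 1 + 1 from rfl, show i + l + 2 = i + l + 1 + 1 from rfl,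
      shape hn (by omega), shape hn (by omega)] at b
    omega
  have hl' : l = 2 ^ j * (2 * o) := by rw [hlo]; ring
  have p : 0 < 2 ^ j := by positivity
  have q : 2 * 2 ^ j ≤ l := by
    rw [hl', mul_comm]; exact Nat.mul_le_mul_left _ (by omega)
  by_cases c3 : 5 ≤ j
  · obtain ⟨m, m1, m2⟩ := next_mul (2 ^ j) (i + 6) p
    obtain ⟨r, rfl⟩ := Nat.exists_eq_add_of_le c3
    have e : 2 ^ (5 + r) = 32 * 2 ^ r := by rw [pow_add]; norm_num
    have e1 : 2 ^ (5 + r) * m = 32 * (2 ^ r * m) := by rw [e, mul_assoc]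
    have e2 : l = 32 * (2 ^ r * (2 * o)) := by rw [hl', e, mul_assoc]
    exact flip_sq hn i l (5 + r) o m ho' hl' m1 (by omega) (by omega) (by omega)
  · have q2 : 2 ^ j ≤ 16 := by
      calc 2 ^ j ≤ 2 ^ 4 := Nat.pow_le_pow_right (by norm_num) (by omega)
        _ = 16 := by norm_num
    obtain ⟨m, m1, m2⟩ := next_mul (2 ^ j) (max (i + 6) 18) p
    exact flip_sq hn i l j o m ho' hl' (by omega) (by omega) (by omega) (by omega)

lemma left_block {n : ℕ} (hn : 9 ≤ n) (p : ℕ) (hp : p < 3) (x : ℚ) (hx : ∀ u < 100, x ≠ val n u) :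
    ∃ i l, 2 ≤ l ∧ i + 2 * l ≤ 18 ∧ Sq (ins p x (val n)) i l := by
  have hk : ∃ k ≤ 100, ∀ u < 100, (val n u < x ↔ R u < k) := by
    by_cases c : ∃ u < 100, val n u < x
    · obtain ⟨u0, hu0, hm⟩ := Finset.exists_max_image
        ((Finset.range 100).filter fun u => val n u < x) (val n)
        (by obtain ⟨u, a, b⟩ := c; exact ⟨u, by simp [a, b]⟩)
      simp only [Finset.mem_filter, Finset.mem_range] at hu0 hm
      refine ⟨R u0 + 1, (tab3 u0 hu0.1).1, fun u hu => ?_⟩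
      rw [Nat.lt_succ_iff, ← not_lt (a := R u0), ← left_ord hn hu0.1 hu, not_lt]
      exact ⟨fun h => hm u ⟨hu, h⟩, fun h => lt_of_le_of_lt h hu0.2⟩
    · exact ⟨0, by omega, fun u hu => iff_of_false (fun h => c ⟨u, hu, h⟩) (by omega)⟩
  obtain ⟨k, hk, hk'⟩ := hk
  have hk2 : ∀ u < 100, (x < val n u ↔ k ≤ R u) := by
    intro u hu
    rw [← not_lt (a := R u), ← hk' u hu, not_lt]
    exact ⟨le_of_lt, fun h => lt_of_le_of_ne h (hx u hu)⟩
  have tr : ∀ u < 100, ∀ w < 100, (ins p x (val n) u < ins p x (val n) w ↔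
      ins p (2 * k) (fun u => 2 * R u + 1) u < ins p (2 * k) (fun u => 2 * R u + 1) w) := by
    have A : ∀ u < 100, ∀ w < 100, (val n u < val n w ↔ 2 * R u + 1 < 2 * R w + 1) := by
      intro u hu w hw; rw [left_ord hn hu hw]; omega
    have B : ∀ u < 100, (val n u < x ↔ 2 * R u + 1 < 2 * k) := by
      intro u hu; rw [hk' u hu]; omega
    have D : ∀ u < 100, (x < val n u ↔ 2 * k < 2 * R u + 1) := by
      intro u hu; rw [hk2 u hu]; omega
    intro u hu w hw
    unfold ins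
    split_ifs
    all_goals first
      | exact A _ (by omega) _ (by omega)
      | exact B _ (by omega)
      | exact D _ (by omega)
      | simp
  obtain ⟨i, l, h1, h2, h3⟩ := tab2 p k hp hk
  refine ⟨i, l, h1, h2, fun a ha b hb => ?_⟩
  rw [tr _ (by omega) _ (by omega), tr _ (by omega) _ (by omega)]
  exact h3 a ha b hb

lemma sq2 (g : ℕ → ℚ) (i : ℕ) (h1 : g i ≠ g (i + 1)) (h2 : g (i + 2) ≠ g (i + 3))
    (h : g i < g (i + 1) ↔ g (i + 2) < g (i + 3)) : Sq g i 2 := by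
  intro a ha b hb
  have h' : g (i + 1) < g i ↔ g (i + 3) < g (i + 2) := by
    rw [← not_le, ← not_le, le_iff_lt_or_eq, le_iff_lt_or_eq, h]
    simp [h1, h2]
  interval_cases a <;> interval_cases b
  · simp
  · exact h
  · exact h'
  · simp

lemma block {n : ℕ} (hn : 9 ≤ n) (p : ℕ) (hp : p ≤ 2 ^ n - 11) (x : ℚ)
    (hx : ∀ u < 2 ^ n - 11, x ≠ val n u) :
    ∃ i l, 2 ≤ l ∧ i + 2 * l ≤ 2 ^ n - 11 + 1 ∧ Sq (ins p x (val n)) i l := by
  obtain ⟨E, hE, hE0⟩ := big hn
  by_cases c1 : p < 3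
  · obtain ⟨i, l, h1, h2, h3⟩ := left_block hn p c1 x (fun u hu => hx u (by omega))
    exact ⟨i, l, h1, by omega, h3⟩
  by_cases c2 : 2 ^ n - 11 - p < 3
  · obtain ⟨i, l, h1, h2, h3⟩ := left_block hn _ c2 (1 - x) (fun u hu h => by
      apply hx (2 ^ n - 12 - u) (by omega)
      rw [refl_val hn (u := u) (by omega) hu, ← h]; ring)
    refine ⟨2 ^ n - 11 + 1 - (i + 2 * l), l, h1, by omega, ?_⟩
    refine sq_refl _ _ (2 ^ n - 11 + 1) i _ l (by omega) ?_ h3
    intro u w huw _ hw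
    unfold ins
    split_ifs
    all_goals first
      | omega
      | exact refl_val hn (by omega) (by omega)
      | ring
  obtain ⟨r, rfl⟩ : ∃ r, p = r + 3 := ⟨p - 3, by omega⟩
  have e0 : ins (r + 3) x (val n) r = val n r := by unfold ins; rw [if_pos (by omega)]
  have e1 : ins (r + 3) x (val n) (r + 1) = val n (r + 1) := by unfold ins; rw [if_pos (by omega)]
  have e2 : ins (r + 3) x (val n) (r + 2) = val n (r + 2) := by unfold ins; rw [if_pos (by omega)]
  have e3 : ins (r + 3) x (val n) (r + 3) = x := by unfold ins; simp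
  have e4 : ins (r + 3) x (val n) (r + 4) = val n (r + 3) := by
    unfold ins; rw [if_neg (by omega), if_neg (by omega)]; rfl
  have e5 : ins (r + 3) x (val n) (r + 5) = val n (r + 4) := by
    unfold ins; rw [if_neg (by omega), if_neg (by omega)]; rfl
  have e6 : ins (r + 3) x (val n) (r + 6) = val n (r + 5) := by
    unfold ins; rw [if_neg (by omega), if_neg (by omega)]; rfl
  have ne : ∀ u, u + 1 < 2 ^ n - 11 → val n u ≠ val n (u + 1) := fun u hu h => by
    have := val_inj hn (by omega) hu h; omega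
  have s0 := shape hn (i := r) (by omega)
  have s1 := shape hn (i := r + 1) (by omega)
  have s3 := shape hn (i := r + 3) (by omega)
  have s4 := shape hn (i := r + 4) (by omega)
  have x2 := hx (r + 2) (by omega)
  have x3 := hx (r + 3) (by omega)
  by_cases d0 : val n r < val n (r + 1) ↔ val n (r + 2) < x
  · refine ⟨r, 2, le_rfl, by omega, sq2 _ _ ?_ ?_ ?_⟩
    · rw [e0, e1]; exact ne _ (by omega)
    · rw [e2, e3]; exact x2.symm
    · rw [e0, e1, e2, e3]; exact d0
  by_cases d1 : val n (r + 1) < val n (r + 2) ↔ x < val n (r + 3)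
  · refine ⟨r + 1, 2, le_rfl, by omega, sq2 _ _ ?_ ?_ ?_⟩
    · rw [e1, e2]; exact ne _ (by omega)
    · rw [e3, e4]; exact x3
    · rw [e1, e2, e3, e4]; exact d1
  by_cases d2 : val n (r + 2) < x ↔ val n (r + 3) < val n (r + 4)
  · refine ⟨r + 2, 2, le_rfl, by omega, sq2 _ _ ?_ ?_ ?_⟩
    · rw [e2, e3]; exact x2.symm
    · rw [e4, e5]; exact ne _ (by omega)
    · rw [e2, e3, e4, e5]; exact d2
  by_cases d3 : x < val n (r + 3) ↔ val n (r + 4) < val n (r + 5)
  · refine ⟨r + 3, 2, le_rfl, by omega, sq2 _ _ ?_ ?_ ?_⟩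
    · rw [e3, e4]; exact x3
    · rw [e5, e6]; exact ne _ (by omega)
    · rw [e3, e4, e5, e6]; exact d3
  exfalso
  rw [s0] at d0
  rw [s1] at d1
  rw [s3] at d2
  rw [s4] at d3
  by_cases X : val n (r + 2) < x <;> by_cases Y : x < val n (r + 3) <;>
    simp only [X, Y, iff_true, iff_false, true_iff, false_iff, not_not] at d0 d1 d2 d3 <;> omega

lemma getD_ins (w : List ℚ) (p : ℕ) (hp : p ≤ w.length) (x : ℚ) (u : ℕ) :
    (w.take p ++ x :: w.drop p).getD u 0 = ins p x (fun j => w.getD j 0) u := by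
  unfold ins
  simp only [List.getD_eq_getElem?_getD, List.getElem?_append, List.length_take,
    min_eq_left hp]
  split_ifs with a b
  · rw [List.getElem?_take_of_lt a]
  · subst b; simp
  · obtain ⟨r, rfl⟩ : ∃ r, u = p + (r + 1) := ⟨u - p - 1, by omega⟩
    simp [List.getElem?_drop]

lemma getD_w (n L u : ℕ) (hu : u < L) : ((List.range L).map (val n)).getD u 0 = val n u := by
  simp [List.getD_eq_getElem?_getD, List.getElem?_map, List.getElem?_range hu]

end Pool.Agent.H.MP_78b1ee_co
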