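import Mathlib

set_option autoImplicit false

namespace Pool.Agent.H.MP_78b1ee_co

def RL : List ℕ := [9, 4, 5, 82, 81, 8, 30, 33, 7, 6, 10, 83, 64, 11, 58, 80, 29, 3, 47, 76, 65, 1, 42, 79, 32, 2, 53, 75, 66, 0, 59, 77, 31, 12, 55, 78, 67, 13, 43, 84, 34, 14, 50, 85, 68, 15, 60, 86, 35, 16, 48, 87, 69, 17, 44, 88, 36, 18, 52, 89, 70, 19, 61, 90, 37, 20, 56, 91, 71, 21, 45, 92, 38, 22, 54, 93, 72, 23, 62, 94, 39, 24, 49, 95, 73, 25, 46, 96, 40, 26, 51, 97, 74, 27, 63, 98, 41, 28, 57, 99]
def VL : List ℕ := [0, 0, 0, 0, 0, 0, 1, 1, 0, 0, 0, 0, 1, 0, 2, 0, 1, 0, 3, 0, 1, 0, 2, 0, 1, 0, 5, 0, 1, 0, 2, 0, 1, 0, 3, 0, 1, 0, 2, 0, 1, 0, 4, 0, 1, 0, 2, 0, 1, 0, 3, 0, 1, 0, 2, 0, 1, 0, 6, 0, 1, 0, 2, 0, 1, 0, 3, 0, 1, 0, 2, 0, 1, 0, 4, 0, 1, 0, 2, 0, 1, 0, 3, 0, 1, 0, 2, 0, 1, 0, 5, 0, 1, 0, 2, 0, 1, 0, 3, 0]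
def SL : List Bool := [false, false, false, true, true, false, false, false, false, false, false, true, true, false, true, true, false, false, false, true, true, false, false, true, false, false, true, true, true, false, true, true, false, false, true, true, true, false, false, true, false, false, false, true, true, false, true, true, false, false, false, true, true, false, false, true, false, false, true, true, true, false, true, true, false, false, true, true, true, false, false, true, false, false, true, true, true, false, true, true, false, false, false, true, true, false, false, true, false, false, false, true, true, false, true, true, false, false, true, true]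

def R (i : ℕ) : ℕ := RL.getD i 0
def V (i : ℕ) : ℕ := VL.getD i 0
def S (i : ℕ) : Bool := SL.getD i false

def ins {α : Type} (p : ℕ) (x : α) (g : ℕ → α) (u : ℕ) : α :=
  if u < p then g u else if u = p then x else g (u - 1)

def sqb (h : ℕ → ℕ) (i l : ℕ) : Bool :=
  (List.range l).all fun a => (List.range l).all fun b =>
    (decide (h (i + a) < h (i + b)) == decide (h (i + l + a) < h (i + l + b)))

def key (i : ℕ) : ℕ := if S i then 16 - V i else V i

lemma tab1' : ((List.range 12).all fun i => (List.range 51).all fun l =>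
    decide (l < 2) || decide (100 < i + 2 * l) || !(sqb R i l)) = true := by decide +kernel

lemma tab2' : ((List.range 3).all fun p => (List.range 101).all fun k => (List.range 3).any fun i =>
    [2, 4, 8].any fun l => decide (i + 2 * l ≤ 18) &&
      sqb (ins p (2 * k) (fun u => 2 * R u + 1)) i l) = true := by decide +kernel

lemma tab3' : ((List.range 100).all fun i => decide (R i < 100) && decide (V i ≤ 6) &&
    (List.range 100).all fun j => (!decide (key i < key j) || decide (R i < R j)) &&
      (!decide (R i = R j) || decide (i = j))) = true := by decide +kernel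

lemma tab4' : ((List.range 100).all fun i => decide (i < 12) ||
    decide ((i + 6) % (2 ^ V i * 4) = 2 ^ V i * (if S i then 1 else 3))) = true := by decide +kernel

lemma tab5' : ((List.range 99).all fun i =>
    decide (R i < R (i + 1)) == decide ((i + 6) % 4 = 0 ∨ (i + 6) % 4 = 3)) = true := by
  decide +kernel

lemma sqb_iff (h : ℕ → ℕ) (i l : ℕ) : sqb h i l = true ↔
    ∀ a < l, ∀ b < l, (h (i + a) < h (i + b) ↔ h (i + l + a) < h (i + l + b)) := by
  simp [sqb, List.all_eq_true]

lemma tab1 (i l : ℕ) (hi : i < 12) (hl : 2 ≤ l) (h : i + 2 * l ≤ 100) :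
    ¬ ∀ a < l, ∀ b < l, (R (i + a) < R (i + b) ↔ R (i + l + a) < R (i + l + b)) := by
  have := tab1'
  simp only [List.all_eq_true, List.mem_range] at this
  have := this i hi l (by omega)
  rw [← sqb_iff]
  simp only [Bool.or_eq_true, decide_eq_true_eq, Bool.not_eq_true'] at this
  rcases this with (h1 | h1) | h1
  · omega
  · omega
  · simp [h1]

lemma tab2 (p k : ℕ) (hp : p < 3) (hk : k ≤ 100) : ∃ i l, 2 ≤ l ∧ i + 2 * l ≤ 18 ∧
    ∀ a < l, ∀ b < l,
      (ins p (2 * k) (fun u => 2 * R u + 1) (i + a) < ins p (2 * k) (fun u => 2 * R u + 1) (i + b) ↔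
       ins p (2 * k) (fun u => 2 * R u + 1) (i + l + a) <
        ins p (2 * k) (fun u => 2 * R u + 1) (i + l + b)) := by
  have := tab2'
  simp only [List.all_eq_true, List.mem_range, List.any_eq_true] at this
  obtain ⟨i, -, l, hl, h⟩ := this p hp k (by omega)
  simp only [Bool.and_eq_true, decide_eq_true_eq] at h
  refine ⟨i, l, ?_, h.1, (sqb_iff _ _ _).1 h.2⟩
  simp at hl; omega

lemma tab3 (i : ℕ) (hi : i < 100) : R i < 100 ∧ V i ≤ 6 ∧
    ∀ j < 100, (key i < key j → R i < R j) ∧ (R i = R j → i = j) := by
  have := tab3'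
  simp only [List.all_eq_true, List.mem_range] at this
  have := this i hi
  simp only [Bool.and_eq_true, decide_eq_true_eq, List.all_eq_true, List.mem_range,
    Bool.or_eq_true, Bool.not_eq_true', decide_eq_false_iff_not] at this
  refine ⟨this.1.1, this.1.2, fun j hj => ?_⟩
  have := this.2 j hj
  constructor
  · intro h; rcases this.1 with h1 | h1
    · exact absurd h h1
    · exact h1
  · intro h; rcases this.2 with h1 | h1
    · exact absurd h h1
    · exact h1

lemma tab4 (i : ℕ) (h1 : 12 ≤ i) (hi : i < 100) :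
    (i + 6) % (2 ^ V i * 4) = 2 ^ V i * (if S i then 1 else 3) := by
  have := tab4'
  simp only [List.all_eq_true, List.mem_range] at this
  have := this i hi
  simp only [Bool.or_eq_true, decide_eq_true_eq] at this
  rcases this with h | h
  · omega
  · exact h

lemma tab5 (i : ℕ) (hi : i < 99) : R i < R (i + 1) ↔ ((i + 6) % 4 = 0 ∨ (i + 6) % 4 = 3) := by
  have := tab5'
  simp only [List.all_eq_true, List.mem_range] at this
  have := this i hi
  rw [beq_iff_eq, decide_eq_decide] at this
  exact this

end Pool.Agent.H.MP_78b1ee_co
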