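import Pool.Agent.H.MP_78b1ee_co.Tab

set_option autoImplicit false

namespace Pool.Agent.H.MP_78b1ee_co

def cv (n : ℕ) (s : Bool) (v : ℕ) : ℤ := if s then (n : ℤ) - v else (v : ℤ) - n
def lev (t : ℕ) : ℕ := padicValNat 2 t
def sg (t : ℕ) : Bool := decide (t / 2 ^ lev t % 4 = 1)
def C (n t : ℕ) : ℤ := cv n (sg t) (lev t)

lemma cl_of (v m : ℕ) (hm : m % 2 = 1) :
    lev (2 ^ v * m) = v ∧ sg (2 ^ v * m) = decide (m % 4 = 1) := by
  have h1 : lev (2 ^ v * m) = v := by
    unfold lev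
    rw [padicValNat.mul (by positivity) (by omega), padicValNat.prime_pow,
      padicValNat.eq_zero_of_not_dvd (by omega)]
    rfl
  refine ⟨h1, ?_⟩
  unfold sg
  rw [h1, Nat.mul_div_cancel_left _ (by positivity)]

lemma C_of (n v m : ℕ) (hm : m % 2 = 1) :
    C n (2 ^ v * m) = if m % 4 = 1 then (n : ℤ) - v else (v : ℤ) - n := by
  unfold C cv
  rw [(cl_of v m hm).1, (cl_of v m hm).2]
  simp

lemma flip (n j o m : ℕ) (ho : o % 2 = 1) (hm : m % 2 = 0) (h0 : 0 < m) (hlt : 2 ^ j * m < 2 ^ n) :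
    (o % 4 = 1 → C n (2 ^ j * m) < C n (2 ^ j * o)) ∧
    (o % 4 = 3 → C n (2 ^ j * o) < C n (2 ^ j * m)) := by
  obtain ⟨k, m', hm', rfl⟩ := Nat.exists_eq_two_pow_mul_odd (n := m) (by omega)
  have hm'' : m' % 2 = 1 := Nat.odd_iff.1 hm'
  have hk : 1 ≤ k := by
    rcases k with _ | k
    · simp at hm; omega
    · omega
  have e : 2 ^ j * (2 ^ k * m') = 2 ^ (j + k) * m' := by rw [pow_add, mul_assoc]
  rw [e] at hlt ⊢
  have hjk : j + k < n := by
    have : 2 ^ (j + k) < 2 ^ n := lt_of_le_of_lt (Nat.le_mul_of_pos_right _ (by omega)) hlt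
    exact (Nat.pow_lt_pow_iff_right (by norm_num)).1 this
  rw [C_of n _ _ hm'', C_of n _ _ ho]
  constructor
  · intro h; rw [if_pos h]; split_ifs <;> push_cast <;> omega
  · intro h; rw [if_neg (by omega : ¬ o % 4 = 1)]; split_ifs <;> push_cast <;> omega

def cls (n i : ℕ) : ℤ :=
  if i < 100 then cv n (S i) (V i)
  else if 2 ^ n - 12 - i < 100 then - cv n (S (2 ^ n - 12 - i)) (V (2 ^ n - 12 - i))
  else C n (i + 6)

def tie (n i : ℕ) : ℤ :=
  if i < 100 then 2 * R i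
  else if 2 ^ n - 12 - i < 100 then 1 - 2 * R (2 ^ n - 12 - i)
  else 2 * (i + 6)

def vz (n i : ℕ) : ℤ := cls n i * (4 * 2 ^ n) + tie n i
def val (n i : ℕ) : ℚ := (vz n i : ℚ)

lemma big {n : ℕ} (hn : 9 ≤ n) : ∃ E, 2 ^ n = 512 * E ∧ 0 < E := by
  obtain ⟨k, rfl⟩ := Nat.exists_eq_add_of_le hn
  exact ⟨2 ^ k, by rw [pow_add]; norm_num, by positivity⟩

lemma tie_bd {n : ℕ} (hn : 9 ≤ n) (i : ℕ) (hi : i < 2 ^ n - 11) :
    -200 < tie n i ∧ tie n i ≤ 2 * ((2 ^ n : ℕ) : ℤ) := by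
  obtain ⟨E, hE, hE0⟩ := big hn
  unfold tie
  split_ifs with h1 h2
  · have := (tab3 i h1).1; omega
  · have := (tab3 _ h2).1; omega
  · omega

lemma lt_of_cls {n : ℕ} (hn : 9 ≤ n) {i j : ℕ} (hi : i < 2 ^ n - 11) (hj : j < 2 ^ n - 11)
    (h : cls n i < cls n j) : val n i < val n j := by
  obtain ⟨E, hE, hE0⟩ := big hn
  have h1 := tie_bd hn i hi
  have h2 := tie_bd hn j hj
  unfold val vz
  rw [Int.cast_lt]
  have e : (2 : ℤ) ^ n = ((2 ^ n : ℕ) : ℤ) := by push_cast; rfl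
  rw [e]
  have h3 : (512 : ℤ) ≤ ((2 ^ n : ℕ) : ℤ) := by omega
  generalize ((2 ^ n : ℕ) : ℤ) = T at *
  have : (cls n i + 1) * (4 * T) ≤ cls n j * (4 * T) :=
    mul_le_mul_of_nonneg_right (by omega) (by omega)
  nlinarith

lemma lt_of_tie {n : ℕ} {i j : ℕ} (h : cls n i = cls n j) :
    val n i < val n j ↔ tie n i < tie n j := by
  unfold val vz
  rw [Int.cast_lt, h]
  omega

lemma left_ord {n : ℕ} (hn : 9 ≤ n) {i j : ℕ} (hi : i < 100) (hj : j < 100) :
    val n i < val n j ↔ R i < R j := by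
  obtain ⟨E, hE, hE0⟩ := big hn
  have key1 : ∀ i j, i < 100 → j < 100 → cls n i < cls n j → R i < R j := by
    intro i j hi hj h
    apply ((tab3 i hi).2.2 j hj).1
    have h1 := (tab3 i hi).2.1
    have h2 := (tab3 j hj).2.1
    unfold cls cv at h
    rw [if_pos hi, if_pos hj] at h
    unfold key
    split_ifs at h ⊢ <;> omega
  rcases lt_trichotomy (cls n i) (cls n j) with h | h | h
  · exact iff_of_true (lt_of_cls hn (by omega) (by omega) h) (key1 _ _ hi hj h)
  · rw [lt_of_tie h]; unfold tie; rw [if_pos hi, if_pos hj]; omega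
  · exact iff_of_false (not_lt.2 (lt_of_cls hn (by omega) (by omega) h).le)
      (not_lt.2 (key1 _ _ hj hi h).le)

lemma refl_val {n : ℕ} (hn : 9 ≤ n) {u w : ℕ} (h : u + w + 1 = 2 ^ n - 11) (hu : u < 100) :
    val n w = 1 - val n u := by
  obtain ⟨E, hE, hE0⟩ := big hn
  have e : 2 ^ n - 12 - w = u := by omega
  have : vz n w = 1 - vz n u := by
    unfold vz cls tie
    simp only [e, if_pos hu, if_neg (by omega : ¬ w < 100)]
    ring
  unfold val
  rw [this]; push_cast; ring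

lemma val_inj {n : ℕ} (hn : 9 ≤ n) {i j : ℕ} (hi : i < 2 ^ n - 11) (hj : j < 2 ^ n - 11)
    (h : val n i = val n j) : i = j := by
  obtain ⟨E, hE, hE0⟩ := big hn
  rcases lt_trichotomy (cls n i) (cls n j) with h1 | h1 | h1
  · exact absurd h (lt_of_cls hn hi hj h1).ne
  · have h2 : tie n i = tie n j := by
      have a := lt_of_tie (n := n) h1
      have b := lt_of_tie (n := n) h1.symm
      rw [h] at a b
      simp only [lt_irrefl, false_iff] at a b
      omega
    unfold tie at h2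
    split_ifs at h2 with a b c d e f g k
    · exact ((tab3 i a).2.2 j b).2 (by omega)
    · omega
    · have := (tab3 i a).1; omega
    · omega
    · have := ((tab3 _ d).2.2 _ f).2 (by omega); omega
    · omega
    · have := (tab3 j g).1; omega
    · omega
    · omega
  · exact absurd h.symm (lt_of_cls hn hj hi h1).ne

lemma pure {n : ℕ} (hn : 9 ≤ n) {i : ℕ} (h1 : 12 ≤ i) (h2 : i + 24 ≤ 2 ^ n) :
    cls n i = C n (i + 6) := by
  obtain ⟨E, hE, hE0⟩ := big hn
  have key1 : ∀ j, 12 ≤ j → j < 100 → ∃ q, j + 6 = 2 ^ V j * (4 * q + if S j then 1 else 3) := by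
    intro j a b
    refine ⟨(j + 6) / (2 ^ V j * 4), ?_⟩
    have := Nat.div_add_mod (j + 6) (2 ^ V j * 4)
    rw [tab4 j a b] at this
    rw [mul_add, ← mul_assoc]
    exact this.symm
  unfold cls
  split_ifs with a b
  · obtain ⟨q, hq⟩ := key1 i h1 a
    rw [hq, C_of n _ _ (by split_ifs <;> omega)]
    unfold cv
    cases S i
    · simp only [Bool.false_eq_true, if_false]; rw [if_neg (by omega)]
    · simp only [if_true]; rw [if_pos (by omega)]
  · obtain ⟨q, hq⟩ := key1 _ (by omega) b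
    have hv := (tab3 _ b).2.1
    generalize V (2 ^ n - 12 - i) = v at *
    generalize S (2 ^ n - 12 - i) = s at *
    obtain ⟨k, rfl⟩ : ∃ k, n = v + 2 + k := ⟨n - v - 2, by omega⟩
    have e1 : 2 ^ (v + 2 + k) = 2 ^ v * (4 * 2 ^ k) := by rw [pow_add, pow_add]; ring
    have e2 : i + 6 = 2 ^ v * (4 * 2 ^ k - (4 * q + if s then 1 else 3)) := by
      rw [Nat.mul_sub, ← e1, ← hq]; omega
    have e3 : (4 * q + if s then 1 else 3) < 4 * 2 ^ k := by
      by_contra hc
      rw [Nat.sub_eq_zero_of_le (by omega)] at e2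
      omega
    rw [e2, C_of _ _ _ (by split_ifs at e3 ⊢ <;> omega)]
    unfold cv
    cases s
    · simp only [Bool.false_eq_true, if_false] at e3 ⊢; rw [if_pos (by omega)]; ring
    · simp only [if_true] at e3 ⊢; rw [if_neg (by omega)]; ring
  · rfl

/-- comparison of two regular positions -/
lemma cmp {n : ℕ} (hn : 9 ≤ n) (j o m a b : ℕ) (ho : o % 2 = 1) (hm : m % 2 = 0)
    (ha : a + 6 = 2 ^ j * o) (hb : b + 6 = 2 ^ j * m) (a1 : 12 ≤ a) (a2 : a + 24 ≤ 2 ^ n)
    (b1 : 12 ≤ b) (b2 : b + 24 ≤ 2 ^ n) :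
    (val n a < val n b ↔ o % 4 = 3) ∧ (val n b < val n a ↔ o % 4 = 1) := by
  have h0 : 0 < m := by
    rcases m with _ | m
    · simp at hb
    · omega
  have := flip n j o m ho hm h0 (by omega)
  rw [← ha, ← hb, ← pure hn a1 a2, ← pure hn b1 b2] at this
  have h4 : o % 4 = 1 ∨ o % 4 = 3 := by omega
  rcases h4 with h | h
  · have := lt_of_cls hn (by omega) (by omega) (this.1 h)
    exact ⟨iff_of_false (not_lt.2 this.le) (by omega), iff_of_true this h⟩
  · have := lt_of_cls hn (by omega) (by omega) (this.2 h)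
    exact ⟨iff_of_true this h, iff_of_false (not_lt.2 this.le) (by omega)⟩

lemma shape {n : ℕ} (hn : 9 ≤ n) {i : ℕ} (hi : i + 1 < 2 ^ n - 11) :
    val n i < val n (i + 1) ↔ ((i + 6) % 4 = 0 ∨ (i + 6) % 4 = 3) := by
  obtain ⟨E, hE, hE0⟩ := big hn
  by_cases h1 : i < 99
  · rw [left_ord hn (by omega) (by omega), tab5 i h1]
  by_cases h2 : 2 ^ n - 12 - i < 100
  · obtain ⟨j, hj⟩ : ∃ j, j + 1 + i + 1 = 2 ^ n - 11 := ⟨2 ^ n - 11 - i - 2, by omega⟩
    rw [refl_val hn (u := j + 1) (w := i) hj (by omega),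
      refl_val hn (u := j) (w := i + 1) (by omega) (by omega), sub_lt_sub_iff_left,
      left_ord hn (by omega) (by omega), tab5 j (by omega)]
    omega
  · rcases Nat.mod_two_eq_zero_or_one i with h | h
    · rw [(cmp hn 0 (i + 7) (i + 6) (i + 1) i (by omega) (by omega) (by omega) (by omega)
        (by omega) (by omega) (by omega) (by omega)).2]
      omega
    · rw [(cmp hn 0 (i + 6) (i + 7) i (i + 1) (by omega) (by omega) (by omega) (by omega)
        (by omega) (by omega) (by omega) (by omega)).1]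
      omega

end Pool.Agent.H.MP_78b1ee_co
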